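import Pool.Agent.Helper71.CK.Goals

/-!
# The final number-theoretic step: S_FINAL from S_WORDS and S_MAIN
-/

namespace Pool.Agent.Helper58.CK

open Pool.Agent.CK

/-- integer multiples of an irrational number stay away from the integers -/
theorem exists_eps (β : ℝ) (hβ : Irrational β) (M : ℕ) :
    ∃ ε : ℝ, 0 < ε ∧ ∀ h : ℤ, 1 ≤ h → h ≤ M → ∀ z : ℤ, ε ≤ |(h : ℝ) * β - z| := by
  induction M with
  | zero => exact ⟨1, one_pos, fun h h1 h2 => by push_cast at h2; omega⟩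
  | succ M ih =>
    obtain ⟨ε, hε, hh⟩ := ih
    have hx : Irrational (((M + 1 : ℕ) : ℝ) * β) := hβ.natCast_mul (Nat.succ_ne_zero M)
    have hpos : 0 < |((M + 1 : ℕ) : ℝ) * β - round (((M + 1 : ℕ) : ℝ) * β)| := by
      rw [abs_pos, sub_ne_zero]
      exact hx.ne_int _
    refine ⟨min ε |((M + 1 : ℕ) : ℝ) * β - round (((M + 1 : ℕ) : ℝ) * β)|, lt_min hε hpos,
      fun h h1 h2 z => ?_⟩
    by_cases h3 : h ≤ M
    · exact (min_le_left _ _).trans (hh h h1 h3 z)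
    · have h4 : h = ((M + 1 : ℕ) : ℤ) := by push_cast at h2 ⊢; omega
      subst h4
      refine (min_le_right _ _).trans ?_
      have := round_le (((M + 1 : ℕ) : ℝ) * β) z
      simpa using this

theorem ex_one (h1 : S_WORDS) (g : Fin 2) : ex g 1 = 0 := by
  have := (h1.2.2.2.2.2.1 g 1 1).1
  rw [mul_one] at this
  omega

theorem ex_of (g i : Fin 2) : ex g (FreeGroup.of i) = if i = g then 1 else 0 := by
  unfold ex
  rw [FreeGroup.lift_apply_of]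
  rfl

theorem ex_pow (h1 : S_WORDS) (g : Fin 2) (w : FreeGroup (Fin 2)) (k : ℕ) :
    ex g (w ^ k) = k * ex g w := by
  induction k with
  | zero => rw [pow_zero, ex_one h1]; simp
  | succ k ih =>
    rw [pow_succ, (h1.2.2.2.2.2.1 g _ _).1, ih]
    push_cast
    ring

/-- the homomorphism is the combination of the exponent sums -/
theorem phi_eq (h1 : S_WORDS) (β : ℝ) (φ : FreeGroup (Fin 2) →* Multiplicative ℝ)
    (hφ0 : φ (FreeGroup.of (0 : Fin 2)) = Multiplicative.ofAdd (-1 : ℝ))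
    (hφ1 : φ (FreeGroup.of (1 : Fin 2)) = Multiplicative.ofAdd β) (w : FreeGroup (Fin 2)) :
    Multiplicative.toAdd (φ w) = - (ex 0 w : ℝ) + β * (ex 1 w : ℝ) := by
  have hof : ∀ i : Fin 2, Multiplicative.toAdd (φ (FreeGroup.of i)) =
      - (ex 0 (FreeGroup.of i) : ℝ) + β * (ex 1 (FreeGroup.of i) : ℝ) := by
    intro i
    rw [ex_of, ex_of]
    fin_cases i
    · simp [hφ0]
    · simp [hφ1]
  induction w using FreeGroup.induction_on with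
  | C1 => rw [map_one, ex_one h1, ex_one h1]; simp
  | of x => exact hof x
  | inv_of x hx =>
    rw [map_inv, (h1.2.2.2.2.2.1 0 _ 1).2, (h1.2.2.2.2.2.1 1 _ 1).2, toAdd_inv]
    have := hof x
    rw [this]
    push_cast
    ring
  | mul x y hx hy =>
    rw [map_mul, (h1.2.2.2.2.2.1 0 x y).1, (h1.2.2.2.2.2.1 1 x y).1, toAdd_mul, hx, hy]
    push_cast
    ring

/-- the exponent sum of the second generator of `W k` is close to `k n` -/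
theorem ex_W (h1 : S_WORDS) (D : ℕ) (n : ℤ) (W : ℕ → FreeGroup (Fin 2)) (hW1 : ex 1 (W 1) = n)
    (hW : ∀ j k : ℕ, 1 ≤ j → 1 ≤ k → Short D ((W (j + k))⁻¹ * (W j * W k))) (k : ℕ) :
    |ex 1 (W (k + 1)) - ((k : ℤ) + 1) * n| ≤ ((k : ℤ) + 1) * D := by
  induction k with
  | zero =>
    have : ex 1 (W (0 + 1)) - (((0 : ℕ) : ℤ) + 1) * n = 0 := by
      rw [zero_add, hW1]; push_cast; ring
    rw [this, abs_zero]
    positivity
  | succ k ih =>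
    have h2 := h1.2.2.2.2.2.2 1 D _ (hW (k + 1) 1 (by omega) le_rfl)
    rw [(h1.2.2.2.2.2.1 1 _ _).1, (h1.2.2.2.2.2.1 1 _ 1).2, (h1.2.2.2.2.2.1 1 _ _).1, hW1] at h2
    have h3 : |-ex 1 (W (k + 1 + 1)) + (ex 1 (W (k + 1)) + n)| ≤ (D : ℤ) := by
      rw [Int.abs_eq_natAbs]
      exact_mod_cast h2
    rw [abs_le] at ih h3 ⊢
    push_cast
    constructor <;> nlinarith [ih.1, ih.2, h3.1, h3.2]

/-- the estimates for one value of `n` -/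
theorem step (h1 : S_WORDS) (h2 : S_MAIN) (β : ℝ) (hβ : 1 < β)
    (φ : FreeGroup (Fin 2) →* Multiplicative ℝ)
    (hφ0 : φ (FreeGroup.of (0 : Fin 2)) = Multiplicative.ofAdd (-1 : ℝ))
    (hφ1 : φ (FreeGroup.of (1 : Fin 2)) = Multiplicative.ofAdd β)
    (K : Set (FreeGroup (Fin 2)))
    (hK : K = {w | 0 ≤ Multiplicative.toAdd (φ w) ∧ Multiplicative.toAdd (φ w) < 1})
    (Ψ : FreeGroup K → FreeGroup (Fin 2)) (N : ℕ) (hΨK : ∀ w, Ψ w ∈ K)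
    (hΨof : ∀ k : K, Ψ (FreeGroup.of k) = (k : FreeGroup (Fin 2)))
    (hΨ : ∀ w₁ w₂ : FreeGroup K, Short N ((Ψ (w₁ * w₂))⁻¹ * (Ψ w₁ * Ψ w₂)))
    (D i : ℕ) (hD : 1 ≤ D) (hi : 1 ≤ i) (hND : N ≤ D) :
    ∃ n₀ : ℕ, ∀ n : ℕ, n₀ ≤ n → ∃ E₀ E₁ : ℤ, |E₁ - n| ≤ 16 * (D : ℤ) ^ 3 + D ∧
      |(i : ℝ) * (β * E₁ - E₀)| ≤ 1 + 16 * (D : ℝ) ^ 3 * (1 + β) := by
  have hmem : ∀ w : FreeGroup (Fin 2), w ∈ K ↔
      (0 ≤ Multiplicative.toAdd (φ w) ∧ Multiplicative.toAdd (φ w) < 1) := by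
    intro w
    rw [hK]
    rfl
  obtain ⟨n₀, hn₀⟩ := h2 D i hD hi
  refine ⟨n₀, fun n hn => ?_⟩
  have hβn : (0 : ℝ) ≤ n * β := by positivity
  set m : ℕ := ⌊(n : ℝ) * β⌋₊ with hm
  have hmn : n ≤ m := by
    rw [hm]
    apply Nat.le_floor
    have : (0 : ℝ) ≤ n := by positivity
    nlinarith
  have hm1 : (m : ℝ) ≤ n * β := Nat.floor_le hβn
  have hm2 : (n : ℝ) * β < m + 1 := Nat.lt_floor_add_one _
  set u : FreeGroup (Fin 2) := FreeGroup.of 0 ^ m * FreeGroup.of 1 ^ n with hu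
  have hu0 : ex 0 u = m := by
    rw [hu, (h1.2.2.2.2.2.1 0 _ _).1, ex_pow h1, ex_pow h1, ex_of, ex_of]
    simp
  have hu1 : ex 1 u = n := by
    rw [hu, (h1.2.2.2.2.2.1 1 _ _).1, ex_pow h1, ex_pow h1, ex_of, ex_of]
    simp
  have huK : u ∈ K := by
    rw [hmem, phi_eq h1 β φ hφ0 hφ1, hu0, hu1]
    push_cast
    constructor <;> linarith
  set W : ℕ → FreeGroup (Fin 2) := fun k => Ψ ((FreeGroup.of (⟨u, huK⟩ : K)) ^ k) with hWdef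
  have hW1 : W 1 = u := by
    rw [hWdef]
    simp only [pow_one]
    rw [hΨof]
  have hWs : ∀ j k : ℕ, 1 ≤ j → 1 ≤ k → Short D ((W (j + k))⁻¹ * (W j * W k)) := by
    intro j k _ _
    obtain ⟨L, hL1, hL2, hL3⟩ := hΨ ((FreeGroup.of (⟨u, huK⟩ : K)) ^ j)
      ((FreeGroup.of (⟨u, huK⟩ : K)) ^ k)
    refine ⟨L, hL1.trans hND, hL2, ?_⟩
    rw [hL3, ← pow_add]
  have hWi : 0 ≤ Multiplicative.toAdd (φ (W i)) ∧ Multiplicative.toAdd (φ (W i)) < 1 := by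
    exact (hmem _).1 (hΨK ((FreeGroup.of (⟨u, huK⟩ : K)) ^ i))
  rw [phi_eq h1 β φ hφ0 hφ1] at hWi
  obtain ⟨E₀, hE₀⟩ := hn₀ m n (hn.trans hmn) hn W hW1 hWs 0
  obtain ⟨E₁, hE₁⟩ := hn₀ m n (hn.trans hmn) hn W hW1 hWs 1
  have hE₀' : |ex 0 (W i) - i * E₀| ≤ 16 * (D : ℤ) ^ 3 := by
    rw [Int.abs_eq_natAbs]
    exact_mod_cast hE₀
  have hE₁' : |ex 1 (W i) - i * E₁| ≤ 16 * (D : ℤ) ^ 3 := by
    rw [Int.abs_eq_natAbs]
    exact_mod_cast hE₁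
  have h3 := ex_W h1 D n W (by rw [hW1, hu1]) hWs (i - 1)
  have h4 : i - 1 + 1 = i := by omega
  have h5 : ((i - 1 : ℕ) : ℤ) + 1 = i := by omega
  rw [h4, h5] at h3
  refine ⟨E₀, E₁, ?_, ?_⟩
  · have hi' : (1 : ℤ) ≤ i := by exact_mod_cast hi
    have hC : (0 : ℤ) ≤ 16 * (D : ℤ) ^ 3 := by positivity
    have h6 : |(i : ℤ) * (E₁ - n)| ≤ 16 * (D : ℤ) ^ 3 + i * D := by
      have : (i : ℤ) * (E₁ - n) = -(ex 1 (W i) - i * E₁) + (ex 1 (W i) - i * n) := by ring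
      rw [this]
      refine (abs_add_le _ _).trans ?_
      rw [abs_neg]
      exact add_le_add hE₁' h3
    rw [abs_mul, abs_of_nonneg (by omega : (0 : ℤ) ≤ i)] at h6
    by_contra hcon
    push Not at hcon
    have h7 : (i : ℤ) * (16 * (D : ℤ) ^ 3 + D) < i * |E₁ - n| :=
      mul_lt_mul_of_pos_left hcon (by omega)
    nlinarith
  · have e0 : |((ex 0 (W i) : ℤ) : ℝ) - i * E₀| ≤ 16 * (D : ℝ) ^ 3 := by exact_mod_cast hE₀'
    have e1 : |((ex 1 (W i) : ℤ) : ℝ) - i * E₁| ≤ 16 * (D : ℝ) ^ 3 := by exact_mod_cast hE₁'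
    have hβ0 : (0 : ℝ) < β := by linarith
    have e2 : |β * (((ex 1 (W i) : ℤ) : ℝ) - i * E₁)| ≤ β * (16 * (D : ℝ) ^ 3) := by
      rw [abs_mul, abs_of_pos hβ0]
      exact mul_le_mul_of_nonneg_left e1 hβ0.le
    have e3 : (i : ℝ) * (β * E₁ - E₀) =
        (- (ex 0 (W i) : ℝ) + β * (ex 1 (W i) : ℝ)) + (((ex 0 (W i) : ℤ) : ℝ) - i * E₀) -
          β * (((ex 1 (W i) : ℤ) : ℝ) - i * E₁) := by ring
    rw [e3]
    rw [abs_le] at e0 e2 ⊢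
    constructor <;> linarith [e0.1, e0.2, e2.1, e2.2, hWi.1, hWi.2]

/-- **S_FINAL**: the frozen statement -/
theorem final (h1 : S_WORDS) (h2 : S_MAIN) : S_FINAL := by
  intro β hβ hirr φ hφ0 hφ1 K hK
  rintro ⟨Ψ, N, hΨK, hΨof, hΨ⟩
  obtain ⟨D, hD, hND⟩ : ∃ D : ℕ, 1 ≤ D ∧ N ≤ D := ⟨max N 1, le_max_right _ _, le_max_left _ _⟩
  obtain ⟨ε, hε, hεh⟩ := exists_eps β hirr (4 * (16 * D ^ 3 + D) + 1)
  obtain ⟨i, hi⟩ := exists_nat_gt (2 * (1 + 16 * (D : ℝ) ^ 3 * (1 + β)) / ε)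
  have hCpos : 0 < 2 * (1 + 16 * (D : ℝ) ^ 3 * (1 + β)) := by
    have : 0 < 1 + β := by linarith
    positivity
  have hipos : (0 : ℝ) < i := lt_trans (by positivity) hi
  have hi1 : 1 ≤ i := by exact_mod_cast hipos
  rw [div_lt_iff₀ hε] at hi
  obtain ⟨n₀, hn₀⟩ := step h1 h2 β hβ φ hφ0 hφ1 K hK Ψ N hΨK hΨof hΨ D i hD hi1 hND
  obtain ⟨E₀, E₁, hE1, hE2⟩ := hn₀ n₀ le_rfl
  obtain ⟨F₀, F₁, hF1, hF2⟩ := hn₀ (n₀ + (2 * (16 * D ^ 3 + D) + 1)) (Nat.le_add_right _ _)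
  rw [abs_le] at hE1 hF1
  push_cast at hF1
  have g1 : 1 ≤ F₁ - E₁ := by linarith [hE1.1, hE1.2, hF1.1, hF1.2]
  have g2 : F₁ - E₁ ≤ ((4 * (16 * D ^ 3 + D) + 1 : ℕ) : ℤ) := by
    push_cast
    linarith [hE1.1, hE1.2, hF1.1, hF1.2]
  have g3 := hεh _ g1 g2 (F₀ - E₀)
  have g4 : |(i : ℝ) * (((F₁ - E₁ : ℤ) : ℝ) * β - ((F₀ - E₀ : ℤ) : ℝ))| ≤
      2 * (1 + 16 * (D : ℝ) ^ 3 * (1 + β)) := by
    have : (i : ℝ) * (((F₁ - E₁ : ℤ) : ℝ) * β - ((F₀ - E₀ : ℤ) : ℝ)) =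
        (i : ℝ) * (β * F₁ - F₀) - (i : ℝ) * (β * E₁ - E₀) := by push_cast; ring
    rw [this]
    refine (abs_sub _ _).trans ?_
    linarith
  rw [abs_mul, abs_of_pos hipos] at g4
  have g5 : (i : ℝ) * ε ≤ (i : ℝ) * |((F₁ - E₁ : ℤ) : ℝ) * β - ((F₀ - E₀ : ℤ) : ℝ)| :=
    mul_le_mul_of_nonneg_left g3 hipos.le
  linarith

end Pool.Agent.Helper58.CK
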